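import Pool.Agent.H52.MG.Basic
import Pool.Agent.H52.MG.Targets

/-!
# Combinatorics of the doubled structure
-/

set_option autoImplicit false
set_option linter.unusedSectionVars false

noncomputable section

open Classical

namespace Pool.Agent.H19.MG

open Pool.Agent.H52.MG

section
variable {V : Type} [Fintype V]

lemma cr2_sum {W L : Type} [Fintype W] (G : SimpleGraph W) (d : W → L) :
    cr2 G d = ∑ x, ∑ y, if G.Adj x y ∧ d x ≠ d y then 1 else 0 := by
  unfold cr2
  rw [Finset.card_filter, ← Finset.univ_product_univ, Finset.sum_product]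

lemma dbl_some_some (G : SimpleGraph V) (s : V) (i j : Bool) (u w : V) :
    (Gdbl G s).Adj (i, some u) (j, some w) ↔ i = j ∧ G.Adj u w := by
  simp only [Gdbl]
  constructor
  · rintro ⟨h, ⟨u', w', h1, h2, h3⟩ | ⟨h1, _⟩ | ⟨_, h1⟩⟩
    · rw [Option.some_inj] at h1 h2
      rw [h1, h2]
      exact ⟨h, h3⟩
    · simp at h1
    · simp at h1
  · rintro ⟨h1, h2⟩
    exact ⟨h1, Or.inl ⟨u, w, rfl, rfl, h2⟩⟩

lemma dbl_none_some (G : SimpleGraph V) (s : V) (i j : Bool) (w : V) :
    (Gdbl G s).Adj (i, none) (j, some w) ↔ i = j ∧ w = s := by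
  simp only [Gdbl]
  constructor
  · rintro ⟨h, ⟨u', w', h1, h2, h3⟩ | ⟨_, h1⟩ | ⟨h1, _⟩⟩
    · simp at h1
    · rw [Option.some_inj] at h1
      exact ⟨h, h1⟩
    · simp at h1
  · rintro ⟨h1, h2⟩
    exact ⟨h1, Or.inr (Or.inl ⟨trivial, by rw [h2]⟩)⟩

lemma dbl_some_none (G : SimpleGraph V) (s : V) (i j : Bool) (w : V) :
    (Gdbl G s).Adj (i, some w) (j, none) ↔ i = j ∧ w = s := by
  rw [SimpleGraph.adj_comm, dbl_none_some]
  exact and_congr_left' eq_comm

lemma dbl_none_none (G : SimpleGraph V) (s : V) (i j : Bool) :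
    ¬ (Gdbl G s).Adj (i, none) (j, none) := by
  simp only [Gdbl]
  rintro ⟨h, ⟨u', w', h1, h2, h3⟩ | ⟨_, h1⟩ | ⟨h1, _⟩⟩
  · simp at h1
  · simp at h1
  · simp at h1

/-- the part of the sum over one copy -/
lemma dbl_sum {L : Type} (G : SimpleGraph V) (s : V) (d : Bool × Option V → L) (i : Bool) :
    (∑ o, ∑ o', if (Gdbl G s).Adj (i, o) (i, o') ∧ d (i, o) ≠ d (i, o') then 1 else 0) =
      cr2 G (fun v => d (i, some v)) + 2 * (if d (i, none) ≠ d (i, some s) then 1 else 0) := by
  rw [Fintype.sum_option, Fintype.sum_option]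
  have e1 : (∑ w, if (Gdbl G s).Adj (i, none) (i, some w) ∧ d (i, none) ≠ d (i, some w)
      then 1 else 0) = if d (i, none) ≠ d (i, some s) then 1 else 0 := by
    rw [Finset.sum_eq_single s]
    · simp only [dbl_none_some, true_and]
    · intro b _ hb
      rw [if_neg]
      rw [dbl_none_some]
      exact fun h => hb h.1.2
    · intro h
      exact absurd (Finset.mem_univ _) h
  have e2 : ∀ u, (∑ o', if (Gdbl G s).Adj (i, some u) (i, o') ∧ d (i, some u) ≠ d (i, o')
      then 1 else 0) = (if u = s ∧ d (i, none) ≠ d (i, some s) then 1 else 0) +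
        ∑ w, if G.Adj u w ∧ d (i, some u) ≠ d (i, some w) then 1 else 0 := by
    intro u
    rw [Fintype.sum_option]
    congr 1
    · congr 1
      rw [dbl_some_none]
      simp only [true_and, eq_iff_iff]
      constructor
      · rintro ⟨rfl, h⟩
        exact ⟨rfl, h.symm⟩
      · rintro ⟨rfl, h⟩
        exact ⟨rfl, h.symm⟩
    · refine Finset.sum_congr rfl fun w _ => ?_
      simp only [dbl_some_some, true_and]
  have e3 : (if (Gdbl G s).Adj (i, none) (i, none) ∧ d (i, none) ≠ d (i, none)
      then 1 else 0) = 0 := by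
    rw [if_neg]
    exact fun h => h.2 rfl
  rw [e1, e3, Finset.sum_congr rfl fun u _ => e2 u, Finset.sum_add_distrib, ← cr2_sum]
  have e4 : (∑ u, if u = s ∧ d (i, none) ≠ d (i, some s) then 1 else 0) =
      if d (i, none) ≠ d (i, some s) then 1 else 0 := by
    rw [Finset.sum_eq_single s]
    · simp only [true_and]
    · intro b _ hb
      rw [if_neg]
      exact fun h => hb h.1
    · intro h
      exact absurd (Finset.mem_univ _) h
  rw [e4]
  ring

lemma cr2_dbl {L : Type} (G : SimpleGraph V) (s : V) (d : Bool × Option V → L) :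
    cr2 (Gdbl G s) d =
      (cr2 G (fun v => d (false, some v)) +
        2 * (if d (false, none) ≠ d (false, some s) then 1 else 0)) +
      (cr2 G (fun v => d (true, some v)) +
        2 * (if d (true, none) ≠ d (true, some s) then 1 else 0)) := by
  rw [cr2_sum, Fintype.sum_prod_type, Fintype.sum_bool, ← dbl_sum, ← dbl_sum, add_comm]
  have key : ∀ i : Bool, ∀ o : Option V,
      (∑ y, if (Gdbl G s).Adj (i, o) y ∧ d (i, o) ≠ d y then 1 else 0) =
      ∑ o', if (Gdbl G s).Adj (i, o) (i, o') ∧ d (i, o) ≠ d (i, o') then 1 else 0 := by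
    intro i o
    rw [Fintype.sum_prod_type, Finset.sum_eq_single i]
    · intro j _ hj
      refine Finset.sum_eq_zero fun o' _ => ?_
      rw [if_neg]
      rintro ⟨h, _⟩
      exact hj h.1.symm
    · intro h
      exact absurd (Finset.mem_univ _) h
  congr 1
  · exact Finset.sum_congr rfl fun o _ => key false o
  · exact Finset.sum_congr rfl fun o _ => key true o

lemma s2_bound {G : SimpleGraph V} {c : V → V} {s t : V} (h2 : Cnd G c 2)
    (h0 : ∀ d : V → V, Coarse c d → d s = d t → 0 ≤ s2 G d) {L : Type} (d : V → L)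
    (hd : Coarse c d) :
    12 * pt d ≤ 5 * cr2 G d + 16 ∧ (d s = d t → 12 * pt d ≤ 5 * cr2 G d + 12) := by
  constructor
  · have := Cnd_all h2 d hd
    unfold s2 at this
    push_cast at this
    omega
  · intro hst
    obtain ⟨e, he, -, -, hs⟩ := exists_relabel' G d
    have := h0 e (fun u w huw => (he u w).mpr (hd u w huw)) ((he s t).mpr hst)
    rw [hs] at this
    unfold s2 at this
    omega

lemma dbl_core {L : Type} (G : SimpleGraph V) (c : V → V) (s t : V) (h2 : Cnd G c 2)
    (h0 : ∀ d : V → V, Coarse c d → d s = d t → 0 ≤ s2 G d) (d : Bool × Option V → L)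
    (hd : Coarse (cdbl c t) d) : 0 ≤ s2 (Gdbl G s) d := by
  -- basic facts
  have hβ : d (true, none) = d (false, none) := hd _ _ rfl
  have hδ : d (true, some t) = d (false, some t) := hd _ _ (by simp [cdbl])
  have hc : ∀ i, Coarse c (fun v => d (i, some v)) := by
    intro i u w huw
    exact hd _ _ (by simp [cdbl, huw])
  have hb := fun i => s2_bound h2 h0 (fun v => d (i, some v)) (hc i)
  have hcr := cr2_dbl G s d
  have hb0 := hb false
  have hb1 := hb true
  rw [hβ] at hcr
  rw [hδ] at hb1
  set β := d (false, none) with hβ'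
  set δ := d (false, some t) with hδ'
  set e0 := cr2 G (fun v => d (false, some v)) with he0
  set e1 := cr2 G (fun v => d (true, some v)) with he1
  have hI0 : pt (fun v => d (false, some v)) = (Finset.univ.image (fun v => d (false, some v))).card
    := rfl
  have hI1 : pt (fun v => d (true, some v)) = (Finset.univ.image (fun v => d (true, some v))).card
    := rfl
  set I0 := Finset.univ.image (fun v => d (false, some v)) with hI0'
  set I1 := Finset.univ.image (fun v => d (true, some v)) with hI1'
  rw [hI0] at hb0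
  rw [hI1] at hb1
  have hδ0 : δ ∈ I0 := Finset.mem_image_of_mem _ (Finset.mem_univ t)
  have hδ1 : δ ∈ I1 := by
    rw [← hδ]
    exact Finset.mem_image_of_mem (fun v => d (true, some v)) (Finset.mem_univ t)
  have hσ0 : d (false, some s) ∈ I0 := Finset.mem_image_of_mem _ (Finset.mem_univ s)
  have hσ1 : d (true, some s) ∈ I1 :=
    Finset.mem_image_of_mem (fun v => d (true, some v)) (Finset.mem_univ s)
  have himg : Finset.univ.image d ⊆ insert β I0 ∪ insert β I1 := by
    intro x hx
    obtain ⟨⟨i, o⟩, -, rfl⟩ := Finset.mem_image.mp hx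
    cases o with
    | none =>
      cases i with
      | false => exact Finset.mem_union_left _ (Finset.mem_insert_self _ _)
      | true => rw [hβ]; exact Finset.mem_union_left _ (Finset.mem_insert_self _ _)
    | some v =>
      cases i with
      | false =>
        exact Finset.mem_union_left _ (Finset.mem_insert_of_mem
          (Finset.mem_image_of_mem (fun v => d (false, some v)) (Finset.mem_univ v)))
      | true =>
        exact Finset.mem_union_right _ (Finset.mem_insert_of_mem
          (Finset.mem_image_of_mem (fun v => d (true, some v)) (Finset.mem_univ v)))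
  have hcard : (Finset.univ.image d).card ≤ (insert β I0 ∪ insert β I1).card :=
    Finset.card_le_card himg
  have hui := Finset.card_union_add_card_inter (insert β I0) (insert β I1)
  have hpt : pt d = (Finset.univ.image d).card := rfl
  unfold s2
  rw [hpt]
  by_cases hβδ : β = δ
  · have i0 : insert β I0 = I0 := Finset.insert_eq_of_mem (by rw [hβδ]; exact hδ0)
    have i1 : insert β I1 = I1 := Finset.insert_eq_of_mem (by rw [hβδ]; exact hδ1)
    rw [i0, i1] at hcard hui
    have hint : 1 ≤ (I0 ∩ I1).card :=
      Finset.card_pos.mpr ⟨δ, Finset.mem_inter.mpr ⟨hδ0, hδ1⟩⟩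
    by_cases k0 : β = d (false, some s) <;> by_cases k1 : β = d (true, some s)
    · have l0 := hb0.2 (k0.symm.trans hβδ)
      have l1 := hb1.2 (k1.symm.trans hβδ)
      rw [if_neg (fun h => h k0), if_neg (fun h => h k1)] at hcr
      omega
    · have l0 := hb0.2 (k0.symm.trans hβδ)
      have l1 := hb1.1
      rw [if_neg (fun h => h k0), if_pos k1] at hcr
      omega
    · have l0 := hb0.1
      have l1 := hb1.2 (k1.symm.trans hβδ)
      rw [if_pos k0, if_neg (fun h => h k1)] at hcr
      omega
    · have l0 := hb0.1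
      have l1 := hb1.1
      rw [if_pos k0, if_pos k1] at hcr
      omega
  · have hint : 2 ≤ (insert β I0 ∩ insert β I1).card := by
      rw [← Finset.card_pair hβδ]
      refine Finset.card_le_card ?_
      intro x hx
      simp only [Finset.mem_insert, Finset.mem_singleton] at hx
      rw [Finset.mem_inter, Finset.mem_insert, Finset.mem_insert]
      rcases hx with rfl | rfl
      · exact ⟨Or.inl rfl, Or.inl rfl⟩
      · exact ⟨Or.inr hδ0, Or.inr hδ1⟩
    have j0 := Finset.card_insert_le β I0
    have j1 := Finset.card_insert_le β I1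
    have l0 := hb0.1
    have l1 := hb1.1
    have m0 : 12 * (insert β I0).card ≤ 5 * (e0 + 2 * (if β ≠ d (false, some s) then 1 else 0)) +
        18 := by
      by_cases k0 : β = d (false, some s)
      · rw [if_neg (fun h => h k0), Finset.insert_eq_of_mem (by rw [k0]; exact hσ0)]
        omega
      · rw [if_pos k0]
        omega
    have m1 : 12 * (insert β I1).card ≤ 5 * (e1 + 2 * (if β ≠ d (true, some s) then 1 else 0)) +
        18 := by
      by_cases k1 : β = d (true, some s)
      · rw [if_neg (fun h => h k1), Finset.insert_eq_of_mem (by rw [k1]; exact hσ1)]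
        omega
      · rw [if_pos k1]
        omega
    omega

end

theorem dbl : T_DBL := by
  intro V _ G c s t _ h2 h0 d hd
  have := dbl_core G c s t h2 h0 d hd
  simpa using this

end Pool.Agent.H19.MG
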