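import Pool.Agent.H52.MG.Basic
import Pool.Agent.H52.MG.Targets

/-!
# Tight multigraphs and tight partitions
-/

set_option autoImplicit false
set_option linter.unusedSectionVars false

noncomputable section

open Classical

namespace Pool.Agent.H19.MG

open Pool.Agent.H52.MG

section
variable {K : Type} [Fintype K]

lemma pt_merge (T : Finset K) (t : K) (ht : t ∈ T) :
    pt (fun v : K => if v ∈ T then t else v) + T.card = Fintype.card K + 1 := by
  unfold pt
  have h : (Finset.univ.image (fun v : K => if v ∈ T then t else v)) = insert t Tᶜ := by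
    ext v
    simp only [Finset.mem_image, Finset.mem_univ, true_and, Finset.mem_insert, Finset.mem_compl]
    constructor
    · rintro ⟨a, ha⟩
      by_cases h : a ∈ T
      · rw [if_pos h] at ha
        exact Or.inl ha.symm
      · rw [if_neg h] at ha
        rw [← ha]
        exact Or.inr h
    · rintro (h | h)
      · exact ⟨t, by rw [if_pos ht, h]⟩
      · exact ⟨v, by rw [if_neg h]⟩
  rw [h, Finset.card_insert_of_notMem (by simpa using ht)]
  have := Finset.card_add_card_compl T
  omega

lemma me2_merge {m : K → K → ℕ} (hm : MSym m) (T : Finset K) (t : K) (ht : t ∈ T) :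
    me2 m (fun v : K => if v ∈ T then t else v) + ∑ x ∈ T, ∑ y ∈ T, m x y = ∑ x, mdeg m x := by
  have h1 : ∑ x ∈ T, ∑ y ∈ T, m x y = ∑ x, ∑ y, if x ∈ T ∧ y ∈ T then m x y else 0 := by
    rw [← Finset.sum_subset (Finset.subset_univ T)]
    · refine Finset.sum_congr rfl fun x hx => ?_
      rw [← Finset.sum_subset (Finset.subset_univ T)]
      · refine Finset.sum_congr rfl fun y hy => ?_
        rw [if_pos ⟨hx, hy⟩]
      · intro y _ hy
        rw [if_neg (fun h => hy h.2)]
    · intro x _ hx
      refine Finset.sum_eq_zero fun y _ => ?_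
      rw [if_neg (fun h => hx h.1)]
  rw [h1]
  unfold me2 mdeg
  rw [← Finset.sum_add_distrib]
  refine Finset.sum_congr rfl fun x _ => ?_
  rw [← Finset.sum_add_distrib]
  refine Finset.sum_congr rfl fun y _ => ?_
  by_cases hx : x ∈ T <;> by_cases hy : y ∈ T
  · simp [hx, hy]
  · have : t ≠ y := fun h => hy (h ▸ ht)
    simp [hx, hy, this]
  · have : x ≠ t := fun h => hx (h ▸ ht)
    simp [hx, hy, this]
  · by_cases hxy : x = y
    · subst hxy
      simp [hx, hm.2]
    · simp [hx, hy, hxy]

lemma me2_id {m : K → K → ℕ} (hm : MSym m) : me2 m (id : K → K) = ∑ x, mdeg m x := by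
  unfold me2 mdeg
  refine Finset.sum_congr rfl fun x _ => Finset.sum_congr rfl fun y _ => ?_
  by_cases hxy : x = y
  · subst hxy
    simp [hm.2]
  · simp [hxy]

lemma pt_id : pt (id : K → K) = Fintype.card K := by
  unfold pt
  rw [Finset.image_id, Finset.card_univ]

/-- the bound coming from merging the vertices of `T` in a tight multigraph -/
lemma merge_bound {m : K → K → ℕ} (hm : MSym m) (h0 : ∀ Q : K → K, 0 ≤ ms2 m Q)
    (h1 : ms2 m (id : K → K) = 0) (T : Finset K) (t : K) (ht : t ∈ T) :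
    5 * (∑ x ∈ T, ∑ y ∈ T, m x y) + 12 ≤ 12 * T.card := by
  have a1 := pt_merge T t ht
  have a2 := me2_merge hm T t ht
  have a3 := h0 (fun v : K => if v ∈ T then t else v)
  rw [← me2_id hm] at a2
  unfold ms2 at a3 h1
  rw [pt_id] at h1
  omega

end

theorem n2b : T_N2B := by
  intro K _ m hm hK h0 h1
  have e1 : 5 * (∑ x, mdeg m x) + 12 = 12 * Fintype.card K := by
    have := h1
    unfold ms2 at this
    rw [pt_id, me2_id hm] at this
    omega
  obtain ⟨r, hr⟩ := me2_even m hm (id : K → K)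
  rw [me2_id hm] at hr
  have hn : 6 ≤ Fintype.card K := by omega
  refine ⟨hn, ?_⟩
  -- degrees are at least two
  have hdeg : ∀ x, 2 ≤ mdeg m x := by
    intro x
    have hcard : (Finset.univ.erase x).card = Fintype.card K - 1 := by
      rw [Finset.card_erase_of_mem (Finset.mem_univ _), Finset.card_univ]
    obtain ⟨t, ht⟩ : (Finset.univ.erase x).Nonempty := by
      rw [← Finset.card_pos, hcard]; omega
    have hb := merge_bound hm h0 h1 (Finset.univ.erase x) t ht
    rw [hcard] at hb
    have hs : (∑ a ∈ Finset.univ.erase x, ∑ b ∈ Finset.univ.erase x, m a b) + 2 * mdeg m x =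
        ∑ a, mdeg m a := by
      have s1 : ∀ a, (∑ b ∈ Finset.univ.erase x, m a b) + m a x = mdeg m a := fun a =>
        Finset.sum_erase_add _ _ (Finset.mem_univ x)
      have s2 : (∑ a ∈ Finset.univ.erase x, mdeg m a) + mdeg m x = ∑ a, mdeg m a :=
        Finset.sum_erase_add _ _ (Finset.mem_univ x)
      have s3 : (∑ a ∈ Finset.univ.erase x, m a x) + m x x = ∑ a, m a x :=
        Finset.sum_erase_add _ _ (Finset.mem_univ x)
      have s4 : ∑ a, m a x = mdeg m x := by
        unfold mdeg
        exact Finset.sum_congr rfl fun a _ => hm.1 a x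
      rw [hm.2, add_zero, s4] at s3
      have s5 : (∑ a ∈ Finset.univ.erase x, ∑ b ∈ Finset.univ.erase x, m a b) +
          (∑ a ∈ Finset.univ.erase x, m a x) = ∑ a ∈ Finset.univ.erase x, mdeg m a := by
        rw [← Finset.sum_add_distrib]
        exact Finset.sum_congr rfl fun a _ => s1 a
      omega
    omega
  -- some degree is two
  obtain ⟨x, hx⟩ : ∃ x, mdeg m x = 2 := by
    by_contra hcon
    push Not at hcon
    have : ∀ x ∈ (Finset.univ : Finset K), 3 ≤ mdeg m x := fun x _ => by
      have h2 := hdeg x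
      have h3 := hcon x
      omega
    have h4 := Finset.card_nsmul_le_sum Finset.univ (fun x => mdeg m x) 3 this
    rw [Finset.card_univ, smul_eq_mul] at h4
    omega
  -- no multiple edges
  have hmul : ∀ a b, m a b ≤ 1 := by
    intro a b
    by_cases hab : a = b
    · subst hab
      rw [hm.2]; omega
    · have hb := merge_bound hm h0 h1 {a, b} a (by simp)
      rw [Finset.card_pair hab, Finset.sum_pair hab, Finset.sum_pair hab, Finset.sum_pair hab,
        hm.2, hm.2, hm.1 b a] at hb
      omega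
  -- the two neighbours
  have hcard2 : (Finset.univ.filter (fun y => m x y = 1)).card = 2 := by
    rw [Finset.card_filter, ← hx]
    unfold mdeg
    refine Finset.sum_congr rfl fun y _ => ?_
    have := hmul x y
    by_cases h : m x y = 1
    · rw [if_pos h, h]
    · rw [if_neg h]; omega
  obtain ⟨y, z, hyz, hset⟩ := Finset.card_eq_two.mp hcard2
  have hy : m x y = 1 := by
    have : y ∈ Finset.univ.filter (fun y => m x y = 1) := by rw [hset]; simp
    exact (Finset.mem_filter.mp this).2
  have hz : m x z = 1 := by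
    have : z ∈ Finset.univ.filter (fun y => m x y = 1) := by rw [hset]; simp
    exact (Finset.mem_filter.mp this).2
  refine ⟨x, y, z, hx, hy, hz, hyz, ?_⟩
  have hxy : x ≠ y := by
    rintro rfl
    rw [hm.2] at hy; omega
  have hxz : x ≠ z := by
    rintro rfl
    rw [hm.2] at hz; omega
  have hb := merge_bound hm h0 h1 {x, y, z} x (by simp)
  have hnot : x ∉ ({y, z} : Finset K) := by simp [hxy, hxz]
  have hc3 : ({x, y, z} : Finset K).card = 3 := by
    rw [Finset.card_insert_of_notMem hnot, Finset.card_pair hyz]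
  have hs3 : ∀ f : K → ℕ, ∑ a ∈ ({x, y, z} : Finset K), f a = f x + (f y + f z) := fun f => by
    rw [Finset.sum_insert hnot, Finset.sum_pair hyz]
  rw [hc3, hs3, hs3, hs3, hs3, hm.2, hm.2, hm.2, hm.1 y x, hm.1 z x, hm.1 z y, hy, hz] at hb
  omega

theorem n2d (hQ : T_QUO) : T_N2D := by
  intro V _ G d hd h0 h1
  obtain ⟨K, _, m, π, hsurj, hπ, hm, hcard, hmu, hdeg, hcr, -, -⟩ := hQ V G d
  have hpt : ∀ Q : K → K, pt (fun v => Q (π v)) = pt Q := by
    intro Q
    unfold pt
    congr 1
    ext k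
    simp only [Finset.mem_image, Finset.mem_univ, true_and]
    constructor
    · rintro ⟨v, hv⟩
      exact ⟨π v, hv⟩
    · rintro ⟨x, hx⟩
      obtain ⟨v, rfl⟩ := hsurj x
      exact ⟨v, hx⟩
  have hs2 : ∀ Q : K → K, s2 G (fun v => Q (π v)) = ms2 m Q := by
    intro Q
    unfold s2 ms2
    rw [hcr, hpt]
  have hQ0 : ∀ Q : K → K, 0 ≤ ms2 m Q := by
    intro Q
    rw [← hs2 Q]
    obtain ⟨e, he, -, -, hs⟩ := exists_relabel' G (fun v => Q (π v))
    rw [← hs]
    refine h0 e ?_
    intro u w huw
    rw [he]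
    rw [(hπ u w).mpr huw]
  have hid : ms2 m (id : K → K) = 0 := by
    rw [← hs2 id, ← h1]
    exact s2_congr G (fun u w => hπ u w)
  obtain ⟨h6, x, y, z, hx, hxy, hxz, hyz, hyz0⟩ := n2b K m hm (by omega) hQ0 hid
  refine ⟨by omega, ?_⟩
  obtain ⟨a0, rfl⟩ := hsurj x
  obtain ⟨u0, rfl⟩ := hsurj y
  obtain ⟨w0, rfl⟩ := hsurj z
  have hau : d a0 ≠ d u0 := by
    intro h
    rw [(hπ a0 u0).mpr h, hm.2] at hxy
    omega
  have haw : d a0 ≠ d w0 := by
    intro h
    rw [(hπ a0 w0).mpr h, hm.2] at hxz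
    omega
  have huw : d u0 ≠ d w0 := fun h => hyz ((hπ u0 w0).mpr h)
  rw [hmu _ _ hau] at hxy
  rw [hmu _ _ haw] at hxz
  rw [hmu _ _ huw] at hyz0
  rw [hdeg] at hx
  unfold mu at hxy hxz hyz0
  unfold dgc at hx
  obtain ⟨⟨a, u⟩, hau1⟩ := Finset.card_eq_one.mp hxy
  obtain ⟨⟨b, w⟩, hbw1⟩ := Finset.card_eq_one.mp hxz
  have hau2 := Finset.mem_filter.mp (hau1 ▸ Finset.mem_singleton_self (a, u))
  have hbw2 := Finset.mem_filter.mp (hbw1 ▸ Finset.mem_singleton_self (b, w))
  simp only [Finset.mem_univ, true_and] at hau2 hbw2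
  obtain ⟨ha, hu, hadj⟩ := hau2
  obtain ⟨hb, hw, hadj'⟩ := hbw2
  refine ⟨a, u, b, w, hb.trans ha.symm, ?_, ?_, ?_, hadj, hadj', ?_, ?_⟩
  · rw [ha, hu]; exact fun h => hau h.symm
  · rw [ha, hw]; exact fun h => haw h.symm
  · rw [hu, hw]; exact huw
  · intro hadjuw
    rw [Finset.card_eq_zero, Finset.filter_eq_empty_iff] at hyz0
    exact hyz0 (Finset.mem_univ (u, w)) ⟨hu, hw, hadjuw⟩
  · intro v z hv hz hvz
    have hsub : ({(a, u), (b, w)} : Finset (V × V)) ⊆ (Finset.univ : Finset (V × V)).filter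
        (fun x => d x.1 = d a0 ∧ d x.2 ≠ d a0 ∧ G.Adj x.1 x.2) := by
      intro p hp
      simp only [Finset.mem_insert, Finset.mem_singleton] at hp
      rw [Finset.mem_filter]
      refine ⟨Finset.mem_univ _, ?_⟩
      rcases hp with rfl | rfl
      · exact ⟨ha, by rw [hu]; exact fun h => hau h.symm, hadj⟩
      · exact ⟨hb, by rw [hw]; exact fun h => haw h.symm, hadj'⟩
    have hne : (a, u) ≠ (b, w) := by
      intro h
      rw [Prod.mk.injEq] at h
      apply huw
      rw [← hu, ← hw, h.2]
    have heq := Finset.eq_of_subset_of_card_le hsub (by rw [hx, Finset.card_pair hne])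
    have hmem : (v, z) ∈ (Finset.univ : Finset (V × V)).filter
        (fun x => d x.1 = d a0 ∧ d x.2 ≠ d a0 ∧ G.Adj x.1 x.2) := by
      rw [Finset.mem_filter]
      refine ⟨Finset.mem_univ _, hv.trans ha, ?_, hvz⟩
      rw [← ha]; exact hz
    rw [← heq] at hmem
    simp only [Finset.mem_insert, Finset.mem_singleton, Prod.mk.injEq] at hmem
    exact hmem

end Pool.Agent.H19.MG
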