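import Pool.Agent.H52.MG.Basic
import Pool.Agent.H52.MG.Targets

/-!
# Connectivity of generic globally rigid frameworks
-/

set_option autoImplicit false
set_option linter.unusedSectionVars false

noncomputable section

open Classical
open scoped Matrix

namespace Pool.Agent.H19.MG

open Pool.Agent.H52.MG

lemma dsq_refl_two (n x y : Vec) (r t κ : ℝ) (hr : r * (n ⬝ᵥ n) = 2 * (n ⬝ᵥ x - κ))
    (ht : t * (n ⬝ᵥ n) = 2 * (n ⬝ᵥ y - κ)) : dsq (x - r • n) (y - t • n) = dsq x y := by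
  simp only [dsq, dot3, Pi.sub_apply, Pi.smul_apply, smul_eq_mul] at *
  linear_combination (r - t) * (hr - ht)

lemma dsq_refl_one (n x y : Vec) (r κ : ℝ) (hr : r * (n ⬝ᵥ n) = 2 * (n ⬝ᵥ x - κ)) :
    dsq (x - r • n) y = dsq x y + 2 * r * (n ⬝ᵥ y - κ) := by
  simp only [dsq, dot3, Pi.sub_apply, Pi.smul_apply, smul_eq_mul] at *
  linear_combination r * hr

lemma exists_dot_ne (v w : Vec) (hv : v ≠ 0) (hw : w ≠ 0) : ∃ n : Vec, n ⬝ᵥ v ≠ 0 ∧ n ⬝ᵥ w ≠ 0 := by
  have h1 : v ⬝ᵥ v ≠ 0 := fun h => hv (dotProduct_self_eq_zero.mp h)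
  have h2 : w ⬝ᵥ w ≠ 0 := fun h => hw (dotProduct_self_eq_zero.mp h)
  by_cases h : v ⬝ᵥ w = 0
  · refine ⟨v + w, ?_, ?_⟩
    · rw [add_dotProduct, dotProduct_comm w v, h, add_zero]; exact h1
    · rw [add_dotProduct, h, zero_add]; exact h2
  · exact ⟨v, h1, h⟩

/-- a plane containing at most three points and avoiding two others -/
lemma exists_plane (hGP : T_GP) {V : Type} [Fintype V] (p : V → Vec) (hp : Gen p) (S : Set V)
    (a b : V) (ha : a ∉ S) (hb : b ∉ S) (hS : S.ncard ≤ 3) :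
    ∃ (n : Vec) (κ : ℝ), (∀ s ∈ S, n ⬝ᵥ p s = κ) ∧ n ⬝ᵥ p a ≠ κ ∧ n ⬝ᵥ p b ≠ κ ∧ n ≠ 0 := by
  obtain ⟨g1, g2, g3⟩ := hGP V p hp
  have h4 : S.ncard = 0 ∨ S.ncard = 1 ∨ S.ncard = 2 ∨ S.ncard = 3 := by omega
  rcases h4 with h | h | h | h
  · rw [Set.ncard_eq_zero (Set.toFinite S)] at h
    subst h
    refine ⟨![1, 0, 0], |p a 0| + |p b 0| + 1, fun s hs => hs.elim, ?_, ?_, ?_⟩
    · rw [dot3]
      simp only [Matrix.cons_val, one_mul, zero_mul, add_zero]
      intro h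
      have h1 := le_abs_self (p a 0)
      have h2 := abs_nonneg (p b 0)
      linarith
    · rw [dot3]
      simp only [Matrix.cons_val, one_mul, zero_mul, add_zero]
      intro h
      have h1 := le_abs_self (p b 0)
      have h2 := abs_nonneg (p a 0)
      linarith
    · intro h
      have := congrFun h 0
      simp at this
  · obtain ⟨s, rfl⟩ := Set.ncard_eq_one.mp h
    simp only [Set.mem_singleton_iff] at ha hb
    obtain ⟨n, h1, h2⟩ := exists_dot_ne (p a - p s) (p b - p s) (sub_ne_zero.mpr (g1 a s ha))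
      (sub_ne_zero.mpr (g1 b s hb))
    rw [dotProduct_sub, sub_ne_zero] at h1 h2
    refine ⟨n, n ⬝ᵥ p s, ?_, h1, h2, ?_⟩
    · intro s' hs'
      rw [Set.mem_singleton_iff] at hs'
      rw [hs']
    · rintro rfl
      simp at h1
  · obtain ⟨s, t, hst, rfl⟩ := Set.ncard_eq_two.mp h
    simp only [Set.mem_insert_iff, Set.mem_singleton_iff, not_or] at ha hb
    obtain ⟨w, h1, h2⟩ := exists_dot_ne ((p t - p s) ⨯₃ (p a - p s)) ((p t - p s) ⨯₃ (p b - p s))
      (g2 s t a hst (Ne.symm ha.1) (Ne.symm ha.2)) (g2 s t b hst (Ne.symm hb.1) (Ne.symm hb.2))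
    have key : ∀ x : Vec, w ⬝ᵥ ((p t - p s) ⨯₃ (x - p s)) =
        (w ⨯₃ (p t - p s)) ⬝ᵥ x - (w ⨯₃ (p t - p s)) ⬝ᵥ p s := by
      intro x
      simp only [dot3, cross_eq, Pi.sub_apply, Matrix.cons_val]
      ring
    have kt : (w ⨯₃ (p t - p s)) ⬝ᵥ p t = (w ⨯₃ (p t - p s)) ⬝ᵥ p s := by
      simp only [dot3, cross_eq, Pi.sub_apply, Matrix.cons_val]
      ring
    rw [key, sub_ne_zero] at h1 h2
    refine ⟨w ⨯₃ (p t - p s), (w ⨯₃ (p t - p s)) ⬝ᵥ p s, ?_, h1, h2, ?_⟩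
    · intro s' hs'
      simp only [Set.mem_insert_iff, Set.mem_singleton_iff] at hs'
      rcases hs' with rfl | rfl
      · rfl
      · exact kt
    · intro h0
      rw [h0] at h1
      simp at h1
  · obtain ⟨s, t, r, hst, hsr, htr, rfl⟩ := Set.ncard_eq_three.mp h
    simp only [Set.mem_insert_iff, Set.mem_singleton_iff, not_or] at ha hb
    have h1 := g3 s t r a hst hsr (Ne.symm ha.1) htr (Ne.symm ha.2.1) (Ne.symm ha.2.2)
    have h2 := g3 s t r b hst hsr (Ne.symm hb.1) htr (Ne.symm hb.2.1) (Ne.symm hb.2.2)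
    have key : ∀ x : Vec, (p t - p s) ⬝ᵥ ((p r - p s) ⨯₃ (x - p s)) =
        ((p t - p s) ⨯₃ (p r - p s)) ⬝ᵥ x - ((p t - p s) ⨯₃ (p r - p s)) ⬝ᵥ p s := by
      intro x
      simp only [dot3, cross_eq, Pi.sub_apply, Matrix.cons_val]
      ring
    have kt : ((p t - p s) ⨯₃ (p r - p s)) ⬝ᵥ p t = ((p t - p s) ⨯₃ (p r - p s)) ⬝ᵥ p s := by
      simp only [dot3, cross_eq, Pi.sub_apply, Matrix.cons_val]
      ring
    have kr : ((p t - p s) ⨯₃ (p r - p s)) ⬝ᵥ p r = ((p t - p s) ⨯₃ (p r - p s)) ⬝ᵥ p s := by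
      simp only [dot3, cross_eq, Pi.sub_apply, Matrix.cons_val]
      ring
    rw [key, sub_ne_zero] at h1 h2
    refine ⟨(p t - p s) ⨯₃ (p r - p s), ((p t - p s) ⨯₃ (p r - p s)) ⬝ᵥ p s, ?_, h1, h2, ?_⟩
    · intro s' hs'
      simp only [Set.mem_insert_iff, Set.mem_singleton_iff] at hs'
      rcases hs' with rfl | rfl | rfl
      · rfl
      · exact kt
      · exact kr
    · intro h0
      rw [h0] at h1
      simp at h1

theorem nec1 (hGP : T_GP) : T_NEC1 := by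
  intro V _ H p hp hGR S A B hcov hAB hSA hSB hA hB hS
  by_contra hcon
  push Not at hcon
  obtain ⟨a, ha⟩ := hA
  obtain ⟨b, hb⟩ := hB
  have haS : a ∉ S := fun h => Set.disjoint_left.mp hSA h ha
  have hbS : b ∉ S := fun h => Set.disjoint_left.mp hSB h hb
  have hbA : b ∉ A := fun h => Set.disjoint_left.mp hAB h hb
  obtain ⟨n, κ, hn, hna, hnb, hn0⟩ := exists_plane hGP p hp S a b haS hbS hS
  have hnn : n ⬝ᵥ n ≠ 0 := fun h => hn0 (dotProduct_self_eq_zero.mp h)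
  set R : V → ℝ := fun v => 2 * (n ⬝ᵥ p v - κ) / (n ⬝ᵥ n) with hR
  have hR1 : ∀ v, R v * (n ⬝ᵥ n) = 2 * (n ⬝ᵥ p v - κ) := by
    intro v
    rw [hR]
    field_simp
  have hR0 : ∀ s ∈ S, R s = 0 := by
    intro s hs
    rw [hR]
    simp only
    rw [hn s hs, sub_self, mul_zero, zero_div]
  set q : V → Vec := fun v => if v ∈ A then p v - R v • n else p v with hq
  have hqA : ∀ v ∈ A, q v = p v - R v • n := fun v hv => by rw [hq]; simp only; rw [if_pos hv]
  have hqS : ∀ s ∈ S, q s = p s - R s • n := fun s hs => by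
    rw [hq]
    simp only
    rw [if_neg (fun h => Set.disjoint_left.mp hSA hs h), hR0 s hs, zero_smul, sub_zero]
  have hqA' : ∀ v, v ∉ A → q v = p v := fun v hv => by rw [hq]; simp only; rw [if_neg hv]
  have key : ∀ u w, u ∈ A → H.Adj u w → dsq (q u) (q w) = dsq (p u) (p w) := by
    intro u w hu huw
    have hw : w ∈ A ∨ w ∈ S := by
      rcases hcov w with h | h | h
      · exact Or.inr h
      · exact Or.inl h
      · exact absurd huw (hcon u hu w h)
    have hqw : q w = p w - R w • n := hw.elim (hqA w) (hqS w)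
    rw [hqA u hu, hqw]
    exact dsq_refl_two n _ _ _ _ κ (hR1 u) (hR1 w)
  have hE : Eqv H p q := by
    intro u w huw
    by_cases hu : u ∈ A
    · exact key u w hu huw
    · by_cases hw : w ∈ A
      · rw [dsq_comm, key w u hw huw.symm, dsq_comm]
      · rw [hqA' u hu, hqA' w hw]
  have h1 := hGR q hE a (Set.mem_univ a) b (Set.mem_univ b)
  rw [hqA a ha, hqA' b hbA, dsq_refl_one n _ _ _ κ (hR1 a)] at h1
  have h2 : R a * (n ⬝ᵥ p b - κ) = 0 := by linarith
  rcases mul_eq_zero.mp h2 with h | h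
  · have h3 := hR1 a
    rw [h, zero_mul] at h3
    apply hna
    linarith
  · apply hnb
    linarith

end Pool.Agent.H19.MG
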