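import Pool.Agent.H52.MG.Basic
import Pool.Agent.H52.MG.Targets

/-!
# The quotient multigraph of a class structure
-/

set_option autoImplicit false
set_option linter.unusedSectionVars false

noncomputable section

open Classical

namespace Pool.Agent.H19.MG

open Pool.Agent.H52.MG

variable {V : Type} [Fintype V]

/-- the type of colours used -/
def QK (c : V → V) : Type := {k : V // ∃ v, c v = k}

instance (c : V → V) : Fintype (QK c) :=
  inferInstanceAs (Fintype {k : V // ∃ v, c v = k})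

/-- the projection -/
def qpi (c : V → V) (v : V) : QK c := ⟨c v, v, rfl⟩

lemma qpi_surj (c : V → V) : Function.Surjective (qpi c) := by
  rintro ⟨k, v, rfl⟩
  exact ⟨v, rfl⟩

lemma qpi_eq (c : V → V) (u w : V) : qpi c u = qpi c w ↔ c u = c w := by
  unfold qpi
  constructor
  · intro h
    exact congrArg Subtype.val h
  · intro h
    exact Subtype.ext h

/-- the multiplicities -/
def qm (G : SimpleGraph V) (c : V → V) (k l : QK c) : ℕ :=
  if k = l then 0 else ((Finset.univ : Finset (V × V)).filter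
    (fun x => G.Adj x.1 x.2 ∧ qpi c x.1 = k ∧ qpi c x.2 = l)).card

lemma qm_sum (G : SimpleGraph V) (c : V → V) (R : QK c → QK c → Prop)
    [hd : ∀ x y, Decidable (R x y)] :
    (∑ x, ∑ y, if R x y then qm G c x y else 0) =
      ((Finset.univ : Finset (V × V)).filter
        (fun x => G.Adj x.1 x.2 ∧ c x.1 ≠ c x.2 ∧ R (qpi c x.1) (qpi c x.2))).card := by
  rw [Finset.card_eq_sum_card_fiberwise (t := (Finset.univ : Finset (QK c × QK c)))
    (f := fun x => (qpi c x.1, qpi c x.2)) (fun _ _ => Finset.mem_coe.mpr (Finset.mem_univ _)),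
    ← Finset.univ_product_univ, Finset.sum_product]
  refine Finset.sum_congr rfl fun k _ => Finset.sum_congr rfl fun l _ => ?_
  rw [Finset.filter_filter]
  by_cases hR : R k l
  · rw [if_pos hR]
    unfold qm
    by_cases hkl : k = l
    · rw [if_pos hkl]
      symm
      rw [Finset.card_eq_zero, Finset.filter_eq_empty_iff]
      rintro ⟨u, w⟩ _ ⟨⟨_, h2, _⟩, h3⟩
      rw [Prod.mk.injEq] at h3
      apply h2
      rw [← qpi_eq, h3.1, h3.2, hkl]
    · rw [if_neg hkl]
      congr 1
      ext ⟨u, w⟩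
      simp only [Finset.mem_filter, Finset.mem_univ, true_and, Prod.mk.injEq]
      constructor
      · rintro ⟨h1, h2, h3⟩
        refine ⟨⟨h1, ?_, ?_⟩, h2, h3⟩
        · rw [Ne, ← qpi_eq, h2, h3]; exact hkl
        · rw [h2, h3]; exact hR
      · rintro ⟨⟨h1, _⟩, h2, h3⟩
        exact ⟨h1, h2, h3⟩
  · rw [if_neg hR]
    symm
    rw [Finset.card_eq_zero, Finset.filter_eq_empty_iff]
    rintro ⟨u, w⟩ _ ⟨⟨_, _, h2⟩, h3⟩
    rw [Prod.mk.injEq] at h3
    rw [h3.1, h3.2] at h2
    exact hR h2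

theorem quo : T_QUO := by
  intro V _ G c
  refine ⟨QK c, inferInstance, qm G c, qpi c, qpi_surj c, qpi_eq c, ⟨?_, ?_⟩, ?_, ?_, ?_, ?_, ?_,
    ?_⟩
  · intro x y
    unfold qm
    by_cases h : x = y
    · rw [if_pos h, if_pos h.symm]
    · rw [if_neg h, if_neg (fun k => h k.symm)]
      refine Finset.card_bij (fun x _ => (x.2, x.1)) ?_ ?_ ?_
      · rintro ⟨u, w⟩ h
        simp only [Finset.mem_filter, Finset.mem_univ, true_and] at h ⊢
        exact ⟨h.1.symm, h.2.2, h.2.1⟩
      · rintro ⟨u, w⟩ _ ⟨u', w'⟩ _ h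
        simp only [Prod.mk.injEq] at h ⊢
        exact ⟨h.2, h.1⟩
      · rintro ⟨u, w⟩ h
        simp only [Finset.mem_filter, Finset.mem_univ, true_and] at h
        exact ⟨(w, u), by
          simp only [Finset.mem_filter, Finset.mem_univ, true_and]
          exact ⟨h.1.symm, h.2.2, h.2.1⟩, rfl⟩
  · intro x
    unfold qm
    rw [if_pos rfl]
  · unfold pt
    rw [← Fintype.card_coe]
    refine Fintype.card_congr ?_
    refine Equiv.subtypeEquivRight ?_
    intro k
    simp
  · intro u w h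
    unfold qm mu
    rw [if_neg (fun k => h ((qpi_eq c u w).mp k))]
    congr 1
    ext ⟨x, y⟩
    simp only [Finset.mem_filter, Finset.mem_univ, true_and, qpi_eq]
    tauto
  · intro v
    have h := qm_sum G c (fun x _ => x = qpi c v)
    have h2 : (∑ x, ∑ y, if x = qpi c v then qm G c x y else 0) = mdeg (qm G c) (qpi c v) := by
      unfold mdeg
      rw [Finset.sum_eq_single (qpi c v)]
      · simp
      · intro b _ hb
        simp [hb]
      · intro h
        exact absurd (Finset.mem_univ _) h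
    rw [← h2, h]
    unfold dgc
    congr 1
    ext ⟨x, y⟩
    simp only [Finset.mem_filter, Finset.mem_univ, true_and, qpi_eq]
    constructor
    · rintro ⟨h1, h2, h3⟩
      exact ⟨h3, fun k => h2 (h3.trans k.symm), h1⟩
    · rintro ⟨h1, h2, h3⟩
      exact ⟨h3, fun k => h2 (k.symm.trans h1), h1⟩
  · intro L Q
    have h := qm_sum G c (fun x y => Q x ≠ Q y)
    unfold me2
    rw [h]
    unfold cr2
    congr 1
    ext ⟨x, y⟩
    simp only [Finset.mem_filter, Finset.mem_univ, true_and]
    constructor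
    · rintro ⟨h1, h2⟩
      refine ⟨h1, fun k => h2 ?_, h2⟩
      rw [(qpi_eq c x y).mpr k]
    · rintro ⟨h1, _, h2⟩
      exact ⟨h1, h2⟩
  · intro L Q Z
    have h := qm_sum G c (fun x y => x ∈ Z ∧ y ∈ Z ∧ Q x ≠ Q y)
    have h2 : (∑ x, ∑ y, if x ∈ Z ∧ y ∈ Z ∧ Q x ≠ Q y then qm G c x y else 0) =
        ∑ x ∈ Z, ∑ y ∈ Z, if Q x ≠ Q y then qm G c x y else 0 := by
      rw [← Finset.sum_filter_add_sum_filter_not Finset.univ (fun x => x ∈ Z)]
      rw [Finset.filter_univ_mem]
      have h3 : (∑ x with x ∉ Z, ∑ y, if x ∈ Z ∧ y ∈ Z ∧ Q x ≠ Q y then qm G c x y else 0) = 0 := by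
        refine Finset.sum_eq_zero fun x hx => Finset.sum_eq_zero fun y _ => ?_
        rw [Finset.mem_filter] at hx
        simp [hx.2]
      rw [h3, add_zero]
      refine Finset.sum_congr rfl fun x hx => ?_
      rw [← Finset.sum_filter_add_sum_filter_not Finset.univ (fun y => y ∈ Z)]
      rw [Finset.filter_univ_mem]
      have h4 : (∑ y with y ∉ Z, if x ∈ Z ∧ y ∈ Z ∧ Q x ≠ Q y then qm G c x y else 0) = 0 := by
        refine Finset.sum_eq_zero fun y hy => ?_
        rw [Finset.mem_filter] at hy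
        simp [hy.2]
      rw [h4, add_zero]
      refine Finset.sum_congr rfl fun y hy => ?_
      simp [hx, hy]
    rw [← h2, h]
    unfold cr2 delS
    congr 1
    ext ⟨x, y⟩
    simp only [Finset.mem_filter, Finset.mem_univ, true_and, Set.mem_ofPred_eq, not_not]
    constructor
    · rintro ⟨⟨h1, h2, h3⟩, h4⟩
      refine ⟨h1, fun k => h4 ?_, h2, h3, h4⟩
      rw [(qpi_eq c x y).mpr k]
    · rintro ⟨h1, _, h2, h3, h4⟩
      exact ⟨⟨h1, h2, h3⟩, h4⟩
  · intro Z
    have h := qm_sum G c (fun x y => x ∈ Z ∧ y ∉ Z)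
    have h2 : (∑ x, ∑ y, if x ∈ Z ∧ y ∉ Z then qm G c x y else 0) =
        ∑ x ∈ Z, ∑ y ∈ Zᶜ, qm G c x y := by
      rw [← Finset.sum_filter_add_sum_filter_not Finset.univ (fun x => x ∈ Z)]
      rw [Finset.filter_univ_mem]
      have h3 : (∑ x with x ∉ Z, ∑ y, if x ∈ Z ∧ y ∉ Z then qm G c x y else 0) = 0 := by
        refine Finset.sum_eq_zero fun x hx => Finset.sum_eq_zero fun y _ => ?_
        rw [Finset.mem_filter] at hx
        simp [hx.2]
      rw [h3, add_zero]
      refine Finset.sum_congr rfl fun x hx => ?_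
      rw [← Finset.sum_add_sum_compl Z]
      have h4 : (∑ y ∈ Z, if x ∈ Z ∧ y ∉ Z then qm G c x y else 0) = 0 := by
        refine Finset.sum_eq_zero fun y hy => ?_
        simp [hy]
      rw [h4, zero_add]
      refine Finset.sum_congr rfl fun y hy => ?_
      rw [Finset.mem_compl] at hy
      simp [hx, hy]
    unfold mcut
    rw [← h2, h]
    congr 1
    ext ⟨x, y⟩
    simp only [Finset.mem_filter, Finset.mem_univ, true_and]
    constructor
    · rintro ⟨h1, _, h2, h3⟩
      exact ⟨h2, h3, h1⟩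
    · rintro ⟨h1, h2, h3⟩
      refine ⟨h3, fun k => h2 ?_, h1, h2⟩
      rw [← (qpi_eq c x y).mpr k]
      exact h1

end Pool.Agent.H19.MG
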